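import Pool.Agent.R536.UE.UpperC

/-!
# Finiteness of update evolution modulo bisimulation is recursively enumerable and undecidable

For finite epistemic models `M` and finite action models `A` (with epistemic preconditions), we
classify the problem whether `TREE(M, A)` is finite modulo bisimulation: it is complete for the
recursively enumerable sets, already for one fixed action model with one agent, and already for
one fixed action model with two agents when all relations are equivalence relations.
-/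

set_option autoImplicit false

namespace Pool.Agent.Results.MP_bcf1b9_lc.UpdateEvolution

open Pool.Agent.R536.UE Pool.Agent.Helper322.LT

/-- The decision problem: is the update evolution of the model coded by `m` and the action model
coded by `α` (with agents `Fin a`) finite modulo bisimulation? -/
def FinEvo (a : ℕ) (m : ModelCode) (α : ActionCode) : Prop :=
  FiniteModBisim (tree (decM a m) (decA a α))

theorem exists_bound {K : ℕ} (Q : Fin K → Fin K → List (Fin K)) :
    ∃ L, ∀ y z, (Q y z).length ≤ L :=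
  ⟨(Finset.univ : Finset (Fin K × Fin K)).sup (fun p => (Q p.1 p.2).length), fun y z =>
    Finset.le_sup (f := fun p : Fin K × Fin K => (Q p.1 p.2).length) (Finset.mem_univ (y, z))⟩

theorem iso_isS5 {a : ℕ} {M N : EModel (Fin a) ℕ} (h : Iso M N) (hM : M.IsS5) : N.IsS5 := by
  intro i
  obtain ⟨h1, h2, h3⟩ := hM i
  have key : ∀ x y, N.R i x y ↔ M.R i (h.e.symm x) (h.e.symm y) := by
    intro x y
    rw [h.R_iff]
    simp
  refine ⟨?_, ?_, ?_⟩
  · intro x
    rw [key]
    exact h1 _
  · intro x y hxy
    rw [key] at hxy ⊢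
    exact h2 hxy
  · intro x y z hxy hyz
    rw [key] at hxy hyz ⊢
    exact h3 hxy hyz

theorem aiso_isS5 {a : ℕ} {A B : AModel (Fin a) ℕ} (h : AIso A B) (hA : A.IsS5) : B.IsS5 := by
  intro i
  obtain ⟨h1, h2, h3⟩ := hA i
  have key : ∀ x y, B.S i x y ↔ A.S i (h.e.symm x) (h.e.symm y) := by
    intro x y
    rw [h.S_iff]
    simp
  refine ⟨?_, ?_, ?_⟩
  · intro x
    rw [key]
    exact h1 _
  · intro x y hxy
    rw [key] at hxy ⊢
    exact h2 hxy
  · intro x y z hxy hyz
    rw [key] at hxy hyz ⊢
    exact h3 hxy hyz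

theorem hard_all (a : ℕ) (ha : 1 ≤ a) : ∃ α : ActionCode, ∀ p : ℕ → Prop, REPred p →
    ∃ f : ℕ → ModelCode, Computable f ∧ ∀ n, p n ↔ FinEvo a (f n) α := by
  obtain ⟨K, Q, t, ht, hu⟩ := universal_word
  obtain ⟨L, hL⟩ := exists_bound Q
  let i : Fin a := ⟨0, ha⟩
  have hfin : Finite (act Q L i).E := finiteEv
  obtain ⟨α, ⟨g⟩⟩ := exists_actionCode (act Q L i)
  refine ⟨α, ?_⟩
  intro p hp
  obtain ⟨r, hr, hpr⟩ := re_reduce p hp
  refine ⟨fun n => codeN K a ((t (r n)).map Fin.val), ?_, ?_⟩
  · exact ((primrec_codeN K a).to_comp.comp ht).comp hr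
  · intro n
    rw [hpr n, ← hu (r n), ← finite_mdl_iff (I := Fin a) (i := i) hL (t (r n))]
    have hW : Finite (mdl (Fin a) (t (r n)) 0).W := finiteWd
    exact finite_congr (codeNIso K a (t (r n))) g

theorem hard_S5 (a : ℕ) (ha : 2 ≤ a) : ∃ α : ActionCode, (decA a α).IsS5 ∧
    ∀ p : ℕ → Prop, REPred p → ∃ f : ℕ → ModelCode, Computable f ∧
      ∀ n, (decM a (f n)).IsS5 ∧ (p n ↔ FinEvo a (f n) α) := by
  obtain ⟨K, Q, t, ht, hu⟩ := universal_word
  obtain ⟨L, hL⟩ := exists_bound Q
  have ha0 : 0 < a := by omega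
  have ha1 : 1 < a := by omega
  have hj : (⟨1, ha1⟩ : Fin a) ≠ ⟨0, ha0⟩ := by
    intro h
    have := congrArg Fin.val h
    simp at this
  obtain ⟨α, ⟨g⟩⟩ := exists_actionCode
    (trA (⟨0, ha0⟩ : Fin a) (⟨1, ha1⟩ : Fin a) (act Q L ()))
  refine ⟨α, aiso_isS5 g (fun i => trRel_equiv _ i), ?_⟩
  intro p hp
  obtain ⟨r, hr, hpr⟩ := re_reduce p hp
  refine ⟨fun n => codeT a (codeN K 1 ((t (r n)).map Fin.val)), ?_, ?_⟩
  · exact ((primrec_codeT a).to_comp.comp ((primrec_codeN K 1).to_comp.comp ht)).comp hr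
  · intro n
    have e : Iso (tr (⟨0, ha0⟩ : Fin a) (mdl Unit (t (r n)) 0))
        (decM a (codeT a (codeN K 1 ((t (r n)).map Fin.val)))) :=
      (trIso (decUIso _ (codeNIso K 1 (t (r n))))).trans (codeTIso a ha0 _)
    refine ⟨iso_isS5 e (fun i => trRel_equiv _ i), ?_⟩
    rw [hpr n, ← hu (r n), ← finite_tr_iff hj hL (t (r n))]
    exact finite_congr e g

/-- Finiteness of the update evolution modulo bisimulation:
(1) every finite model (in which only finitely many atoms occur) and every finite action model has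
a code; (2) for every number of agents the problem is recursively enumerable; (3) for every number
`a ≥ 1` of agents there is one action model for which every recursively enumerable set reduces to
the problem by a computable function; (4) for `a ≥ 2` agents the same holds with all relations
being equivalence relations; (5) so the problem is not decidable for `a ≥ 1` agents, (6) nor, for
`a ≥ 2` agents, on the instances in which all relations are equivalence relations. -/
theorem result :
    ((∀ (a : ℕ) (M : EModel (Fin a) ℕ), Finite M.W → (∃ b, ∀ p w, M.V p w → p < b) →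
        ∃ m : ModelCode, Nonempty (Iso M (decM a m))) ∧
      (∀ (a : ℕ) (A : AModel (Fin a) ℕ), Finite A.E →
        ∃ α : ActionCode, Nonempty (AIso A (decA a α)))) ∧
    (∀ a : ℕ, REPred (fun x : ModelCode × ActionCode => FinEvo a x.1 x.2)) ∧
    (∀ a : ℕ, 1 ≤ a → ∃ α : ActionCode, ∀ p : ℕ → Prop, REPred p →
      ∃ f : ℕ → ModelCode, Computable f ∧ ∀ n, p n ↔ FinEvo a (f n) α) ∧
    (∀ a : ℕ, 2 ≤ a → ∃ α : ActionCode, (decA a α).IsS5 ∧ ∀ p : ℕ → Prop, REPred p →
      ∃ f : ℕ → ModelCode, Computable f ∧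
        ∀ n, (decM a (f n)).IsS5 ∧ (p n ↔ FinEvo a (f n) α)) ∧
    (∀ a : ℕ, 1 ≤ a →
      ¬ ComputablePred (fun x : ModelCode × ActionCode => FinEvo a x.1 x.2)) ∧
    (∀ a : ℕ, 2 ≤ a → ¬ ∃ g : ModelCode × ActionCode → Bool, Computable g ∧
      ∀ x : ModelCode × ActionCode, (decM a x.1).IsS5 → (decA a x.2).IsS5 →
        (g x = true ↔ FinEvo a x.1 x.2)) := by
  have hre : REPred (fun n => (Univ.u n).Dom) := Univ.u_partrec.dom_re
  refine ⟨⟨fun a M hM hV => exists_modelCode M hV, fun a A hA => exists_actionCode A⟩,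
    finite_re, hard_all, hard_S5, ?_, ?_⟩
  · intro a ha hdec
    obtain ⟨α, hα⟩ := hard_all a ha
    obtain ⟨f, hf, h⟩ := hα _ hre
    refine Univ.u_not_computable ?_
    obtain ⟨hd, hc⟩ := hdec
    have hpair : Computable (fun n => ((f n, α) : ModelCode × ActionCode)) :=
      hf.pair (Computable.const α)
    have h1 := hc.comp hpair
    rw [ComputablePred.computable_iff]
    refine ⟨_, h1, ?_⟩
    funext n
    refine propext ?_
    rw [decide_eq_true_iff]
    exact h n
  · rintro a ha ⟨g, hg, hgx⟩
    obtain ⟨α, hα, hα2⟩ := hard_S5 a ha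
    obtain ⟨f, hf, h⟩ := hα2 _ hre
    refine Univ.u_not_computable ?_
    rw [ComputablePred.computable_iff]
    refine ⟨fun n => g (f n, α), hg.comp (hf.pair (Computable.const α)), ?_⟩
    funext n
    refine propext ?_
    exact (h n).2.trans (hgx (f n, α) (h n).1 hα).symm

end Pool.Agent.Results.MP_bcf1b9_lc.UpdateEvolution
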